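import Mathlib

set_option autoImplicit false

open MvPolynomial

namespace Pool.Agent.Results.MP_df70bc_co.NotMaxDegree

/-- The exponent `e'` in `{0, ..., q - 1}` such that `x ^ e` and `x ^ e'` agree modulo `x ^ q - x`:
`0 ↦ 0`, and `e ≥ 1` goes to the unique `e' ∈ {1, ..., q - 1}` congruent to `e` modulo `q - 1`. -/
def redExp (q e : ℕ) : ℕ := if e = 0 then 0 else (e - 1) % (q - 1) + 1

lemma redExp_zero (q : ℕ) : redExp q 0 = 0 := rfl

/-- The reduced form of a polynomial over a finite field with `q` elements: every exponent `e` of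
every variable is replaced by `redExp q e`. -/
noncomputable def reduce {F : Type} [Field F] [Fintype F] {σ : Type} (P : MvPolynomial σ F) :
    MvPolynomial σ F :=
  ∑ m ∈ P.support,
    monomial (m.mapRange (redExp (Fintype.card F)) (redExp_zero (Fintype.card F))) (coeff m P)

/-- The univariate polynomial `t(x) = x + ∑_{k=0}^{q-2} x ^ k`. -/
noncomputable def tPoly (F : Type) [Field F] [Fintype F] : Polynomial F :=
  Polynomial.X + ∑ k ∈ Finset.range (Fintype.card F - 1), Polynomial.X ^ k

/-- The polynomials `f_n ∈ F[x_1, ..., x_n]` (the variable `x_i` is `X (i-1)`, `i - 1 : Fin n`):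
`f_1 = x_1` and `f_{i} = t (f_{i-1} ^ (q-2) + x_i ^ (q-2))` in reduced form. -/
noncomputable def f (F : Type) [Field F] [Fintype F] : (n : ℕ) → MvPolynomial (Fin n) F
  | 0 => 0
  | 1 => X 0
  | (n + 2) => reduce (Polynomial.aeval
      (rename Fin.castSucc (f F (n + 1)) ^ (Fintype.card F - 2)
        + X (Fin.last (n + 1)) ^ (Fintype.card F - 2)) (tPoly F))

section reduce

variable {F : Type} [Field F] [Fintype F] {σ : Type}

lemma pow_redExp (a : F) (e : ℕ) : a ^ redExp (Fintype.card F) e = a ^ e := by
  unfold redExp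
  split_ifs with h
  · simp [h]
  · by_cases ha : a = 0
    · subst ha
      rw [zero_pow (by omega), zero_pow h]
    · have h1 : a ^ (Fintype.card F - 1) = 1 := FiniteField.pow_card_sub_one_eq_one a ha
      have h2 : e = ((e - 1) % (Fintype.card F - 1) + 1)
          + (Fintype.card F - 1) * ((e - 1) / (Fintype.card F - 1)) := by
        have := Nat.mod_add_div (e - 1) (Fintype.card F - 1)
        omega
      conv_rhs => rw [h2, pow_add, pow_mul, h1, one_pow, mul_one]

lemma redExp_lt (q e : ℕ) (hq : 1 < q) : redExp q e < q := by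
  unfold redExp
  split_ifs with h
  · omega
  · have := Nat.mod_lt (e - 1) (show q - 1 > 0 by omega)
    omega

lemma eval_reduce (x : σ → F) (P : MvPolynomial σ F) : eval x (reduce P) = eval x P := by
  classical
  unfold reduce
  conv_rhs => rw [P.as_sum, map_sum]
  rw [map_sum]
  refine Finset.sum_congr rfl fun m _ => ?_
  rw [eval_monomial, eval_monomial]
  congr 1
  rw [Finsupp.prod_mapRange_index (by intro i; simp)]
  exact Finsupp.prod_congr fun i _ => pow_redExp (x i) (m i)

lemma exp_reduce_lt (P : MvPolynomial σ F) (m : σ →₀ ℕ) (hm : m ∈ (reduce P).support) (i : σ) :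
    m i < Fintype.card F := by
  classical
  unfold reduce at hm
  have h := MvPolynomial.support_sum hm
  rw [Finset.mem_biUnion] at h
  obtain ⟨m', _, h'⟩ := h
  have h2 := MvPolynomial.support_monomial_subset h'
  rw [Finset.mem_singleton] at h2
  subst h2
  rw [Finsupp.mapRange_apply]
  exact redExp_lt _ _ Fintype.one_lt_card

end reduce

section weights

variable {F : Type} [Field F] [Fintype F] [DecidableEq F]

/-- The weight extracting the coefficient of `x ^ k` (for `k ≤ q - 1`). -/
def wt (k : ℕ) (a : F) : F :=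
  if k = 0 then (if a = 0 then 1 else 0) else - a ^ (Fintype.card F - 1 - k)

omit [DecidableEq F] in
lemma sum_pow_eq (k : ℕ) :
    ∑ a : F, a ^ k = if (k ≠ 0 ∧ (Fintype.card F - 1) ∣ k) then -1 else 0 := by
  classical
  by_cases h0 : k = 0
  · subst h0
    simp
  · have h1 : ∑ a : F, a ^ k = ∑ x : Fˣ, (x ^ k : F) := by
      rw [← Finset.sum_subset (Finset.subset_univ ((Finset.univ : Finset Fˣ).map
        ⟨Units.val, Units.val_injective⟩))]
      · simp
      · intro a _ ha
        have : a = 0 := by
          by_contra hne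
          exact ha (Finset.mem_map.mpr ⟨Units.mk0 a hne, Finset.mem_univ _, rfl⟩)
        rw [this, zero_pow h0]
    rw [h1, FiniteField.sum_pow_units]
    simp [h0]

lemma sum_pow_mul_wt (k k' : ℕ) (hk : k < Fintype.card F) (hk' : k' < Fintype.card F) :
    ∑ a : F, a ^ k' * wt k a = if k' = k then 1 else 0 := by
  unfold wt
  have hc : 1 < Fintype.card F := Fintype.one_lt_card
  by_cases h0 : k = 0
  · subst h0
    simp only [if_true]
    by_cases h1 : k' = 0
    · subst h1; simp
    · rw [if_neg h1]
      refine Finset.sum_eq_zero fun a _ => ?_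
      by_cases ha : a = 0
      · subst ha; rw [zero_pow h1, zero_mul]
      · rw [if_neg ha, mul_zero]
  · simp only [if_neg h0]
    have h1 : ∀ a : F, a ^ k' * - a ^ (Fintype.card F - 1 - k)
        = - a ^ (k' + (Fintype.card F - 1 - k)) := by
      intro a; rw [pow_add]; ring
    simp_rw [h1]
    rw [Finset.sum_neg_distrib, sum_pow_eq]
    by_cases h2 : k' = k
    · subst h2
      rw [if_pos rfl, if_pos, neg_neg]
      refine ⟨by omega, ?_⟩
      have : k' + (Fintype.card F - 1 - k') = Fintype.card F - 1 := by omega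
      rw [this]
    · rw [if_neg h2, if_neg, neg_zero]
      rintro ⟨h3, j, hj⟩
      have hj0 : j ≠ 0 := by
        rintro rfl; exact h3 (by rw [hj, mul_zero])
      have hj2 : j < 2 := by
        by_contra hge
        have : 2 ≤ j := by omega
        have : (Fintype.card F - 1) * 2 ≤ (Fintype.card F - 1) * j := Nat.mul_le_mul_left _ this
        omega
      have : j = 1 := by omega
      subst this
      omega

lemma coeff_eq_sum {σ : Type} [Fintype σ] [DecidableEq σ] (P : MvPolynomial σ F)
    (hP : ∀ m ∈ P.support, ∀ i, m i < Fintype.card F) (m : σ →₀ ℕ)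
    (hm : ∀ i, m i < Fintype.card F) :
    coeff m P = ∑ x : σ → F, eval x P * ∏ i, wt (m i) (x i) := by
  have h1 : ∀ x : σ → F, eval x P * ∏ i, wt (m i) (x i)
      = ∑ m' ∈ P.support, coeff m' P * ∏ i, (x i ^ m' i * wt (m i) (x i)) := by
    intro x
    rw [eval_eq', Finset.sum_mul]
    refine Finset.sum_congr rfl fun m' _ => ?_
    rw [Finset.prod_mul_distrib, mul_assoc]
  simp_rw [h1]
  rw [Finset.sum_comm]
  have h2 : ∀ m' ∈ P.support, ∑ x : σ → F, coeff m' P * ∏ i, (x i ^ m' i * wt (m i) (x i))
      = if m' = m then coeff m' P else 0 := by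
    intro m' hm'
    rw [← Finset.mul_sum]
    have h3 : ∑ x : σ → F, ∏ i, (x i ^ m' i * wt (m i) (x i))
        = ∏ i, ∑ a : F, (a ^ m' i * wt (m i) a) := by
      rw [Finset.prod_univ_sum, Fintype.piFinset_univ]
    rw [h3]
    have h4 : ∀ i, ∑ a : F, (a ^ m' i * wt (m i) a) = if m' i = m i then 1 else 0 :=
      fun i => sum_pow_mul_wt _ _ (hm i) (hP m' hm' i)
    simp_rw [h4]
    by_cases h5 : m' = m
    · subst h5; simp
    · rw [if_neg h5]
      have : ∃ i, m' i ≠ m i := by
        by_contra hcon
        push Not at hcon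
        exact h5 (Finsupp.ext hcon)
      obtain ⟨i, hi⟩ := this
      rw [Finset.prod_eq_zero (Finset.mem_univ i) (by rw [if_neg hi]), mul_zero]
  rw [Finset.sum_congr rfl h2, Finset.sum_ite_eq']
  split_ifs with h
  · rfl
  · exact notMem_support_iff.mp h

end weights

section values

variable {F : Type} [Field F] [Fintype F] [DecidableEq F]

/-- The value function of `f_n`. -/
def ev : (n : ℕ) → (Fin n → F) → F
  | 0, _ => 0
  | 1, x => x 0
  | (n + 2), x => Equiv.swap 0 1 (ev (n + 1) (fun i => x i.castSucc) ^ (Fintype.card F - 2)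
      + x (Fin.last (n + 1)) ^ (Fintype.card F - 2))

lemma eval_tPoly (a : F) : Polynomial.eval a (tPoly F) = Equiv.swap 0 1 a := by
  unfold tPoly
  rw [Polynomial.eval_add, Polynomial.eval_X, Polynomial.eval_finsetSum]
  simp only [Polynomial.eval_pow, Polynomial.eval_X]
  have hc : 1 < Fintype.card F := Fintype.one_lt_card
  by_cases h0 : a = 0
  · subst h0
    rw [Equiv.swap_apply_left, zero_add]
    rw [Finset.sum_eq_single 0]
    · simp
    · intro b _ hb
      exact zero_pow hb
    · intro h
      exact absurd (Finset.mem_range.mpr (by omega)) h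
  · by_cases h1 : a = 1
    · subst h1
      rw [Equiv.swap_apply_right]
      simp only [one_pow, Finset.sum_const, Finset.card_range, nsmul_eq_mul, mul_one]
      rw [Nat.cast_sub hc.le, FiniteField.cast_card_eq_zero]
      simp
    · rw [Equiv.swap_apply_of_ne_of_ne h0 h1]
      have h2 : (∑ k ∈ Finset.range (Fintype.card F - 1), a ^ k) * (a - 1) = 0 := by
        rw [geom_sum_mul, FiniteField.pow_card_sub_one_eq_one a h0, sub_self]
      rcases mul_eq_zero.mp h2 with h3 | h3
      · rw [h3, add_zero]
      · exact absurd (sub_eq_zero.mp h3) h1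

lemma eval_f (n : ℕ) (x : Fin n → F) : eval x (f F n) = ev n x := by
  induction n using Nat.twoStepInduction with
  | zero => simp [f, ev]
  | one => simp [f, ev]
  | more n _ ih =>
    rw [f, eval_reduce]
    have h1 : ∀ (Q : MvPolynomial (Fin (n + 2)) F) (R : Polynomial F),
        eval x (Polynomial.aeval Q R) = Polynomial.eval (eval x Q) R := by
      intro Q R
      rw [Polynomial.aeval_def, Polynomial.hom_eval₂, Polynomial.eval, ]
      congr 1
      ext a
      simp
    rw [h1, eval_tPoly, ev]
    congr 1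
    rw [map_add, map_pow, map_pow, eval_X, eval_rename, ih]
    rfl

omit [DecidableEq F] in
lemma f_exp_lt (hq : 3 < Fintype.card F) (n : ℕ) (m : Fin n →₀ ℕ) (hm : m ∈ (f F n).support)
    (i : Fin n) : m i < Fintype.card F := by
  match n with
  | 0 => exact i.elim0
  | 1 =>
    rw [f, support_X, Finset.mem_singleton] at hm
    subst hm
    rw [Finsupp.single_apply]
    split_ifs <;> omega
  | (n + 2) =>
    rw [f] at hm
    exact exp_reduce_lt _ m hm i

lemma pow_inj' (hq : 3 < Fintype.card F) : Function.Injective (fun a : F => a ^ (Fintype.card F - 2)) := by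
  have h : ∀ a : F, a ^ (Fintype.card F - 2) = a⁻¹ := by
    intro a
    by_cases ha : a = 0
    · subst ha
      rw [zero_pow (by omega), inv_zero]
    · have h1 := FiniteField.pow_card_sub_one_eq_one a ha
      have h2 : Fintype.card F - 1 = Fintype.card F - 2 + 1 := by omega
      rw [h2, pow_succ] at h1
      exact eq_inv_of_mul_eq_one_left h1
  intro a b hab
  simp only [h] at hab
  exact inv_injective hab

lemma ev_update_bijective (hq : 3 < Fintype.card F) (n : ℕ) (x : Fin n → F) (i : Fin n) :
    Function.Bijective fun b => ev n (Function.update x i b) := by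
  rw [← Finite.injective_iff_bijective]
  induction n using Nat.twoStepInduction with
  | zero => exact i.elim0
  | one =>
    intro a b hab
    simp only [ev] at hab
    rw [Subsingleton.elim i 0] at hab
    simpa using hab
  | more n _ ih =>
    intro a b hab
    simp only [ev] at hab
    have h1 := (Equiv.swap (0 : F) 1).injective hab
    revert h1
    refine Fin.lastCases ?_ ?_ i
    · intro h1
      have h2 : ∀ c : F, (fun j : Fin (n + 1) => Function.update x (Fin.last (n + 1)) c j.castSucc)
          = fun j => x j.castSucc := by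
        intro c
        funext j
        rw [Function.update_of_ne]
        exact (Fin.castSucc_lt_last j).ne
      rw [h2, h2, Function.update_self, Function.update_self] at h1
      exact pow_inj' hq (add_left_cancel h1)
    · intro j h1
      have h2 : ∀ c : F, (fun k : Fin (n + 1) => Function.update x j.castSucc c k.castSucc)
          = Function.update (fun k => x k.castSucc) j c := by
        intro c
        funext k
        by_cases hkj : k = j
        · subst hkj; simp
        · rw [Function.update_of_ne hkj, Function.update_of_ne]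
          intro h; exact hkj (Fin.castSucc_injective _ h)
      rw [h2, h2, Function.update_of_ne (Fin.castSucc_lt_last j).ne',
        Function.update_of_ne (Fin.castSucc_lt_last j).ne'] at h1
      exact ih _ _ (pow_inj' hq (add_right_cancel h1))

end values

section final

variable {F : Type} [Field F] [Fintype F] [DecidableEq F]

omit [DecidableEq F] in
lemma sum_id_eq_zero (hq : 3 < Fintype.card F) : ∑ a : F, a = 0 := by
  have h := FiniteField.sum_pow_lt_card_sub_one F 1 (by omega)
  simpa using h

lemma sum_ev_mul_eq_zero (hq : 3 < Fintype.card F) (n : ℕ) (i : Fin n) (h : (Fin n → F) → F)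
    (hh : ∀ x b, h (Function.update x i b) = h x) : ∑ x : Fin n → F, ev n x * h x = 0 := by
  rw [← (Equiv.funSplitAt i F).symm.sum_comp, Fintype.sum_prod_type_right]
  refine Finset.sum_eq_zero fun y _ => ?_
  set x0 : Fin n → F := (Equiv.funSplitAt i F).symm (0, y) with hx0
  have h1 : ∀ b : F, (Equiv.funSplitAt i F).symm (b, y) = Function.update x0 i b := by
    intro b
    funext j
    by_cases hj : j = i
    · subst hj
      simp [Equiv.funSplitAt, Equiv.piSplitAt]
    · simp [Equiv.funSplitAt, Equiv.piSplitAt, hj, hx0]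
  simp_rw [h1, hh]
  rw [← Finset.sum_mul]
  have h2 : ∑ b : F, ev n (Function.update x0 i b) = ∑ b : F, b :=
    (ev_update_bijective hq n x0 i).sum_comp (fun b => b)
  rw [h2, sum_id_eq_zero hq, zero_mul]

lemma f_exp_le (hq : 3 < Fintype.card F) (n : ℕ) (m : Fin n →₀ ℕ) (hm : m ∈ (f F n).support)
    (i : Fin n) : m i ≤ Fintype.card F - 2 := by
  have hlt := f_exp_lt hq n m hm
  by_contra hcon
  have h1 : m i = Fintype.card F - 1 := by have := hlt i; omega
  have h2 := coeff_eq_sum (f F n) (f_exp_lt hq n) m hlt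
  rw [mem_support_iff] at hm
  apply hm
  rw [h2]
  simp_rw [eval_f]
  apply sum_ev_mul_eq_zero hq n i
  intro x b
  refine Finset.prod_congr rfl fun j _ => ?_
  by_cases hj : j = i
  · subst hj
    rw [h1]
    unfold wt
    rw [if_neg (by omega), if_neg (by omega), Nat.sub_self, pow_zero, pow_zero]
  · rw [Function.update_of_ne hj]

/-- The sum of `g (f_n(x)) x_1 ... x_n` over all points. -/
def T (n : ℕ) (g : F → F) : F := ∑ x : Fin n → F, g (ev n x) * ∏ i, x i

/-- One step of the transfer operator. -/
def K (g : F → F) (a : F) : F :=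
  ∑ y : F, g (Equiv.swap 0 1 (a ^ (Fintype.card F - 2) + y ^ (Fintype.card F - 2))) * y

lemma T_succ (n : ℕ) (g : F → F) : T (n + 2) g = T (n + 1) (K g) := by
  unfold T K
  rw [← (Fin.snocEquiv (fun _ : Fin (n + 2) => F)).sum_comp, Fintype.sum_prod_type_right]
  refine Finset.sum_congr rfl fun x _ => ?_
  rw [Finset.sum_mul]
  refine Finset.sum_congr rfl fun y _ => ?_
  rw [Fin.prod_univ_castSucc, ev]
  simp [Fin.snocEquiv]
  ring

lemma not_max (hq : 3 < Fintype.card F) (n : ℕ) (hn : 1 ≤ n) (hT : T n (fun a : F => a) = 0) :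
    (f F n).totalDegree ≠ n * (Fintype.card F - 2) := by
  intro hdeg
  have hne : (f F n).support.Nonempty := by
    rw [Finset.nonempty_iff_ne_empty]
    intro he
    have : f F n = 0 := support_eq_empty.mp he
    rw [this, totalDegree_zero] at hdeg
    have : 0 < n * (Fintype.card F - 2) := Nat.mul_pos (by omega) (by omega)
    omega
  obtain ⟨m, hm, hmd⟩ := Finset.exists_mem_eq_sup _ hne (fun s => s.sum fun _ e => e)
  have hsum : ∑ i, m i = n * (Fintype.card F - 2) := by
    rw [← hdeg]
    unfold totalDegree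
    rw [hmd, Finsupp.sum_fintype _ _ (fun _ => rfl)]
  have hle := f_exp_le hq n m hm
  have hall : ∀ i, m i = Fintype.card F - 2 := by
    have h1 : ∑ i : Fin n, (Fintype.card F - 2) = n * (Fintype.card F - 2) := by simp
    have h2 : ∑ i, m i = ∑ i : Fin n, (Fintype.card F - 2) := by rw [hsum, h1]
    intro i
    exact (Finset.sum_eq_sum_iff_of_le (fun i _ => hle i)).mp h2 i (Finset.mem_univ i)
  have h3 := coeff_eq_sum (f F n) (f_exp_lt hq n) m (f_exp_lt hq n m hm)
  rw [mem_support_iff] at hm
  apply hm
  rw [h3]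
  simp_rw [eval_f, hall]
  have h4 : ∀ x : Fin n → F, ∏ i, wt (Fintype.card F - 2) (x i) = (-1) ^ n * ∏ i, x i := by
    intro x
    have : ∀ a : F, wt (Fintype.card F - 2) a = -1 * a := by
      intro a
      unfold wt
      rw [if_neg (by omega)]
      have : Fintype.card F - 1 - (Fintype.card F - 2) = 1 := by omega
      rw [this, pow_one, neg_one_mul]
    simp_rw [this]
    rw [Finset.prod_mul_distrib]
    simp
  simp_rw [h4]
  have h5 : ∀ x : Fin n → F, ev n x * ((-1) ^ n * ∏ i, x i) = (-1) ^ n * (ev n x * ∏ i, x i) := by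
    intro x; ring
  simp_rw [h5]
  rw [← Finset.mul_sum]
  have h6 : ∑ x : Fin n → F, ev n x * ∏ i, x i = 0 := hT
  rw [h6, mul_zero]

end final

instance : Fact (Nat.Prime 7) := ⟨by norm_num⟩

/-- The function on `ZMod 7` with the given list of values. -/
def vec (l : List ℕ) (a : ZMod 7) : ZMod 7 := (l.getD a.val 0 : ℕ)

lemma T_ten : T 10 (fun a : ZMod 7 => a) = 0 := by
  have e1 : K (fun a : ZMod 7 => a) = vec [5, 5, 2, 5, 3, 5, 3] :=
    funext (by decide +kernel)
  have e2 : K (vec [5, 5, 2, 5, 3, 5, 3]) = vec [0, 2, 4, 1, 2, 5, 0] :=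
    funext (by decide +kernel)
  have e3 : K (vec [0, 2, 4, 1, 2, 5, 0]) = vec [5, 5, 5, 3, 5, 1, 4] :=
    funext (by decide +kernel)
  have e4 : K (vec [5, 5, 5, 3, 5, 1, 4]) = vec [0, 2, 1, 0, 4, 0, 0] :=
    funext (by decide +kernel)
  have e5 : K (vec [0, 2, 1, 0, 4, 0, 0]) = vec [5, 5, 6, 6, 1, 0, 5] :=
    funext (by decide +kernel)
  have e6 : K (vec [5, 5, 6, 6, 1, 0, 5]) = vec [0, 3, 4, 2, 2, 3, 0] :=
    funext (by decide +kernel)
  have e7 : K (vec [0, 3, 4, 2, 2, 3, 0]) = vec [4, 4, 0, 3, 6, 2, 2] :=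
    funext (by decide +kernel)
  have e8 : K (vec [4, 4, 0, 3, 6, 2, 2]) = vec [0, 6, 0, 6, 0, 2, 0] :=
    funext (by decide +kernel)
  have e9 : K (vec [0, 6, 0, 6, 0, 2, 0]) = vec [1, 1, 5, 0, 6, 6, 2] :=
    funext (by decide +kernel)
  have e10 : T 1 (vec [1, 1, 5, 0, 6, 6, 2]) = 0 := by decide +kernel
  calc T 10 (fun a : ZMod 7 => a) = T 9 (K (fun a : ZMod 7 => a)) := T_succ 8 _
    _ = T 8 (K (vec [5, 5, 2, 5, 3, 5, 3])) := by rw [e1]; exact T_succ 7 _
    _ = T 7 (K (vec [0, 2, 4, 1, 2, 5, 0])) := by rw [e2]; exact T_succ 6 _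
    _ = T 6 (K (vec [5, 5, 5, 3, 5, 1, 4])) := by rw [e3]; exact T_succ 5 _
    _ = T 5 (K (vec [0, 2, 1, 0, 4, 0, 0])) := by rw [e4]; exact T_succ 4 _
    _ = T 4 (K (vec [5, 5, 6, 6, 1, 0, 5])) := by rw [e5]; exact T_succ 3 _
    _ = T 3 (K (vec [0, 3, 4, 2, 2, 3, 0])) := by rw [e6]; exact T_succ 2 _
    _ = T 2 (K (vec [4, 4, 0, 3, 6, 2, 2])) := by rw [e7]; exact T_succ 1 _
    _ = T 1 (K (vec [0, 6, 0, 6, 0, 2, 0])) := by rw [e8]; exact T_succ 0 _
    _ = 0 := by rw [e9, e10]

/-- There are an odd prime `p`, a power `q = p ^ r > 3`, a field `F` with `q` elements and an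
`n ≥ 2` such that the polynomial `f_n` over `F` does not have degree `n (q - 2)`. -/
theorem result : ∃ (p r n : ℕ), p.Prime ∧ Odd p ∧ 3 < p ^ r ∧ 2 ≤ n ∧
    ∃ (F : Type) (_ : Field F) (_ : Fintype F), Fintype.card F = p ^ r ∧
      (f F n).totalDegree ≠ n * (p ^ r - 2) := by
  refine ⟨7, 1, 10, by norm_num, by decide, by norm_num, by norm_num, ZMod 7, inferInstance,
    inferInstance, by simp [ZMod.card], ?_⟩
  have h := not_max (F := ZMod 7) (by simp [ZMod.card]) 10 (by norm_num) T_ten
  rw [ZMod.card] at h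
  simpa using h

end Pool.Agent.Results.MP_df70bc_co.NotMaxDegree
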